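import Mathlib
import Pool.Agent.X236.VE.Main

set_option autoImplicit false

/-!
# Vojta's conjecture for quadratic points: the exceptional set depends on `ε`

`k` is any number field, `E : y² = x³ + a x + b` is an elliptic curve over `k` with `a`, `b` integers
of `k` and with infinitely many points over `k`. `X` is the minimal resolution of the double cover
`w² = x₁ - x₂` of `E × E`. The branch divisor is the union of the diagonal and the antidiagonal,
which meet transversally in four points, so the double cover has four nodes, `K_X` is the pullback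
of `{O} × E + E × {O}`, nef and big, `K_X² = 4`: `X` is a surface of general type and
`h_{K_X} = (h(x₁) + h(x₂)) / 2 + O(1)`. We take `A = K_X`. The map `X → E × E` sends a proper
Zariski-closed subset of `X` into the zero set of a polynomial `G (x₁, y₁, x₂, y₂)` that does not
vanish identically on `E × E`.
-/

namespace Pool.Agent.Results.MP_9b9442_nt.ExceptionalSetDependsOnEps

open NumberField Module

/-- The height `h_{K_X}(P) = (h(x₁) + h(x₂)) / 2` relative to `k` of the point
`P = (x₁, y₁, x₂, y₂, w)` of `X` defined over `L`. -/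
noncomputable def height (k : Type) [Field k] {L : Type} [Field L] [NumberField L] [Algebra k L]
    (x₁ x₂ : L) : ℝ :=
  (Height.logHeight₁ x₁ + Height.logHeight₁ x₂) / 2 / finrank k L

/-- The logarithmic discriminant `d_k(L)`. -/
noncomputable def logDisc (k : Type) [Field k] [NumberField k] (L : Type) [Field L]
    [NumberField L] [Algebra k L] : ℝ :=
  Real.log |(discr L : ℝ)| / finrank k L - Real.log |(discr k : ℝ)|

/-- Vojta's inequality `h_K(P) ≤ d_k(P) + ε h_K(P) + C` for all closed points
`P = (x₁, y₁, x₂, y₂, w)` of degree at most `2` over `k` on the surface `w² = x₁ - x₂` over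
`E × E`, `E : y² = x³ + a x + b`, outside the zero set of `G (x₁, y₁, x₂, y₂)`. -/
def VojtaInequality {k : Type} [Field k] [NumberField k] (a b : 𝓞 k)
    (G : MvPolynomial (Fin 4) k) (ε C : ℝ) : Prop :=
  ∀ (L : Type) [Field L] [NumberField L] [Algebra k L] (x₁ y₁ x₂ y₂ w : L),
    y₁ ^ 2 = x₁ ^ 3 + algebraMap k L a * x₁ + algebraMap k L b →
    y₂ ^ 2 = x₂ ^ 3 + algebraMap k L a * x₂ + algebraMap k L b →
    w ^ 2 = x₁ - x₂ → finrank k L ≤ 2 →
    IntermediateField.adjoin k {x₁, y₁, x₂, y₂, w} = ⊤ →
    MvPolynomial.aeval ![x₁, y₁, x₂, y₂] G ≠ 0 →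
    height k x₁ x₂ ≤ logDisc k L + ε * height k x₁ x₂ + C

/-- **The exceptional set in Vojta's conjecture for quadratic points on surfaces of general type
depends on `ε`.** Let `E : y² = x³ + a x + b` be an elliptic curve with infinitely many points over
`k`. If Vojta's inequality with `ε` and some constant `C` holds for all closed points of degree at
most `2` of the surface `w² = x₁ - x₂` over `E × E` outside the zero set of a polynomial `G` of
degree `D` that does not vanish identically on `E × E`, then `ε ≥ 1 / (5 (3 D + 1)²)`. -/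
theorem result (k : Type) [Field k] [NumberField k] (a b : 𝓞 k)
    (hE : 4 * a ^ 3 + 27 * b ^ 2 ≠ 0)
    (hinf : {p : k × k | p.2 ^ 2 = p.1 ^ 3 + a * p.1 + b}.Infinite)
    (G : MvPolynomial (Fin 4) k) (F : Type) [Field F] [Algebra k F] (x₁ y₁ x₂ y₂ : F)
    (h₁ : y₁ ^ 2 = x₁ ^ 3 + algebraMap k F a * x₁ + algebraMap k F b)
    (h₂ : y₂ ^ 2 = x₂ ^ 3 + algebraMap k F a * x₂ + algebraMap k F b)
    (hG : MvPolynomial.aeval ![x₁, y₁, x₂, y₂] G ≠ 0) (ε C : ℝ)
    (hV : VojtaInequality a b G ε C) :
    1 / (5 * (3 * (G.totalDegree : ℝ) + 1) ^ 2) ≤ ε := by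
  by_contra hε
  rw [not_le] at hε
  have hE' : 4 * (a : k) ^ 3 + 27 * (b : k) ^ 2 ≠ 0 := by
    intro h
    apply hE
    have h' : ((4 * a ^ 3 + 27 * b ^ 2 : 𝓞 k) : k) = 0 := by
      push_cast
      exact h
    exact_mod_cast h'
  obtain ⟨x1, y1, x2, y2, L, _, _, _, w, g1, g2, g3, g4, g5, g6, g7⟩ :=
    Pool.Agent.X236.VE.main a b hE' hinf G F x₁ y₁ x₂ y₂ h₁ h₂ hG ε C hε
  have hmap : ∀ x y : k, y ^ 2 = x ^ 3 + a * x + b → (algebraMap k L y) ^ 2 =
      (algebraMap k L x) ^ 3 + algebraMap k L a * algebraMap k L x + algebraMap k L b := by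
    intro x y h
    have := congrArg (algebraMap k L) h
    simpa using this
  have h := hV L (algebraMap k L x1) (algebraMap k L y1) (algebraMap k L x2) (algebraMap k L y2) w
    (hmap _ _ g1) (hmap _ _ g2) (by rw [g3, map_sub]) g5 (by
      rw [eq_top_iff, ← g4]
      exact IntermediateField.adjoin.mono k _ _ (by simp)) (by
      intro h0
      apply g6
      have e : ![algebraMap k L x1, algebraMap k L y1, algebraMap k L x2, algebraMap k L y2] =
          (algebraMap k L) ∘ ![x1, y1, x2, y2] := by
        funext i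
        fin_cases i <;> rfl
      rw [e, MvPolynomial.aeval_algebraMap_apply, map_eq_zero] at h0
      exact h0)
  have hKL : (0 : ℝ) < finrank k L := by exact_mod_cast finrank_pos
  have hK : (0 : ℝ) < finrank ℚ k := by exact_mod_cast finrank_pos
  have e1 : height k (algebraMap k L x1) (algebraMap k L x2) =
      (Height.logHeight₁ x1 + Height.logHeight₁ x2) / 2 := by
    rw [height, Pool.Agent.X236.VE.ht_ext, Pool.Agent.X236.VE.ht_ext]
    field_simp
  have e2 : logDisc k L = finrank ℚ k * (Pool.Agent.Y733.VR.ld L - Pool.Agent.Y733.VR.ld k) := by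
    rw [logDisc, Pool.Agent.Y733.VR.ld, Pool.Agent.Y733.VR.ld,
      Pool.Agent.Y733.VR.finrank_tower k L]
    field_simp
  rw [e1, e2] at h
  linarith

end Pool.Agent.Results.MP_9b9442_nt.ExceptionalSetDependsOnEps
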