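import Mathlib
import Pool.Agent.X236.GP.Main

set_option autoImplicit false

/-!
# Vojta's inequality for almost all points of degree `N` in the pencils on curves of genus two

Let `X` be a smooth projective curve over `ℚ` and `t : X → ℙ¹` a finite map of degree `N` over `ℚ`.
The function field of `X` is generated over `ℚ(t)` by a function which is integral over `ℤ[t]`; its
minimal polynomial is a monic polynomial `g ∈ ℤ[T][Y]` of degree `N` in `Y`. A closed point `P` of
degree `N` of `X` above a rational number `x` has the residue field `L` of degree `N` generated by a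
root of `g(x, Y)`, except for finitely many `x`.

The discriminant `D ∈ ℤ[T]` of `g` is not a constant times a square if and only if the geometric
monodromy group of `t` is not contained in the alternating group, for example if some fibre of `t`
contains exactly one ramification point and it is simple.

By the formula of Riemann and Hurwitz `h_K(P) = ((2 g_X - 2) / N) h(x)` up to `ε h(x) + O(1)`. The
theorem says that for `κ ≤ 2` one has `(κ / N) h(x) ≤ d(P)` for all points `P` of degree `N` above
all rational `x` of height at most `B` outside a set with `O(B ^ (3 / 2 + κ / 4 + δ))` elements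
(there are about `B²` rational numbers of height at most `B`). For curves `X` of genus two, all such
maps `t` (for instance all maps of degree two) and `κ = 2 - N ε` this is Vojta's inequality
`h_K(P) ≤ d(P) + ε h_A(P) + O(1)`, with `h_A(P) = h(x)`.
-/

namespace Pool.Agent.Results.MP_9b9442_nt.PencilsOfGenusTwo

open Polynomial IntermediateField

/-- The polynomial `g(x, Y)`. -/
noncomputable def specialize (g : ℤ[X][X]) (x : ℚ) : ℚ[X] :=
  g.map (eval₂RingHom (Int.castRingHom ℚ) x)

/-- The logarithmic height of a rational number. -/
noncomputable def height (x : ℚ) : ℝ := Real.log ((max x.num.natAbs x.den : ℕ) : ℝ)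

/-- The logarithmic discriminant `d(L) = log |disc L| / [L : ℚ]`. -/
noncomputable def logDisc (L : Type) [Field L] [NumberField L] : ℝ :=
  Real.log |(NumberField.discr L : ℝ)| / Module.finrank ℚ L

/-- **The discriminants of the points of degree `N` above almost all rational numbers.** Let
`g ∈ ℤ[T][Y]` be monic of degree `N` in `Y`, such that its discriminant `D(T)` is not a constant times
the square of a polynomial. Let `κ ≤ 2` and `δ > 0`. Then for all `B ≥ 1` all rational numbers `x` of
height at most `log B` but at most `C B ^ (3 / 2 + κ / 4 + δ)` have the following property: all number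
fields `L = ℚ(y)` of degree `N` with `g(x, y) = 0` satisfy
`(κ / N) h(x) ≤ (κ / N) log B < d(L)` (for `κ ≥ 0`). -/
theorem result (g : ℤ[X][X]) (hg : g.Monic)
    (hD : ∀ (c : ℚ) (h : ℚ[X]), g.discr.map (Int.castRingHom ℚ) ≠ C c * h ^ 2)
    (κ δ : ℝ) (hκ : κ ≤ 2) (hδ : 0 < δ) :
    ∃ C : ℝ, ∀ B : ℝ, 1 ≤ B → ∃ T : Finset ℚ,
      (T.card : ℝ) ≤ C * B ^ (3 / 2 + κ / 4 + δ) ∧
      ∀ (x : ℚ) (L : Type) [Field L] [NumberField L] (y : L), height x ≤ Real.log B → x ∉ T →
        aeval y (specialize g x) = 0 → ℚ⟮y⟯ = ⊤ → Module.finrank ℚ L = g.natDegree →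
        κ / g.natDegree * Real.log B < logDisc L := by
  obtain ⟨C, -, hC⟩ := Pool.Agent.X236.GP.main_field g hg hD hκ hδ
  refine ⟨C, fun B hB => ?_⟩
  obtain ⟨T, hT1, hT2⟩ := hC B hB
  refine ⟨T, hT1, ?_⟩
  intro x L _ _ y hx hxT hy hgen hfin
  have h := hT2 x L y hx hfin hgen hy hxT
  have hB0 : 0 < B := by linarith
  have hN : (0 : ℝ) < g.natDegree := by
    rw [← hfin]
    exact_mod_cast Module.finrank_pos
  have h1 := Real.log_lt_log (by positivity) h
  rw [Real.log_rpow hB0] at h1
  unfold logDisc
  rw [hfin, lt_div_iff₀ hN]
  have e : κ / g.natDegree * Real.log B * g.natDegree = κ * Real.log B := by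
    field_simp
  rw [e]
  exact h1

end Pool.Agent.Results.MP_9b9442_nt.PencilsOfGenusTwo
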