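import Pool.Agent.X123.MT.Line2
import Pool.Agent.Results.MP_9b9442_nt.CyclicCovers

/-!
# Vojta's inequality for the points of cyclic covers near almost every real or p-adic number

Let `m` be a prime and `X` the curve `y ^ m = a ∏ (v_j X_1 - u_j X_0) ^ (e_j)`, a cyclic cover of the
line of degree `m`, totally ramified over `q ≥ 3` rational points. We consider all points `(x, y)` of
`X` with `x` rational. For almost every real number `ξ` the discriminants of all these points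
satisfy `(q / 2) log (1 / |ξ - x|) ≤ d(x, y) + (q / m + ε) h(x) + C`. This is Vojta's inequality
`h_K(x, y) ≤ d(x, y) + ε h(x) + C` for the points with `|ξ - x| ≤ H(x) ^ (-(2 - 4 / q))`, and for the
convergents `x` of `ξ` it is `q (1 - 1 / m) h(x) ≤ d(x, y) + ε h(x) + C`. The same holds with targets
in several completions of `ℚ`.
-/

set_option autoImplicit false

namespace Pool.Agent.Results.MP_9b9442_nt.PointsNearTargets

open IntermediateField MeasureTheory

/-- The linear form vanishing at the point `P = (u : v)`, at the coprime numerator and denominator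
of `x`. -/
def linear (P : ℤ × ℤ) (x : ℚ) : ℤ := P.2 * x.num - P.1 * x.den

/-- The binary form `a ∏ (v_j X - u_j Y) ^ (e_j)` at the numerator and the denominator of `x`. -/
def form {q : ℕ} (a : ℤ) (P : Fin q → ℤ × ℤ) (e : Fin q → ℕ) (x : ℚ) : ℤ :=
  a * ∏ j, linear (P j) x ^ e j

/-- The logarithmic height of a rational number. -/
noncomputable def height (x : ℚ) : ℝ := Real.log ((max x.num.natAbs x.den : ℕ) : ℝ)

open Classical in
/-- The logarithmic discriminant of the field `ℚ(y)`. -/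
noncomputable def logDisc (y : ℂ) : ℝ :=
  if _ : NumberField ℚ⟮y⟯ then
    Real.log |(NumberField.discr ℚ⟮y⟯ : ℝ)| / Module.finrank ℚ ℚ⟮y⟯ else 0

/-- closed balls of radius `r ≤ 1` have measure at most `C r ^ n` -/
def Balls {F : Type} [MetricSpace F] [MeasurableSpace F] (μ : Measure F) (n : ℝ) : Prop :=
  ∃ C : ℝ, ∀ (a : F) (r : ℝ), 0 < r → r ≤ 1 →
    μ (Metric.closedBall a r) ≤ ENNReal.ofReal (C * r ^ n)

theorem height_nonneg (x : ℚ) : 0 ≤ height x := by
  unfold height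
  apply Real.log_nonneg
  have : 1 ≤ max x.num.natAbs x.den := x.den_pos.trans_le (le_max_right _ _)
  exact_mod_cast this

theorem logDisc_nonneg (y : ℂ) : 0 ≤ logDisc y := by
  unfold logDisc
  split_ifs with h
  · refine div_nonneg (Real.log_nonneg ?_) (Nat.cast_nonneg _)
    have h1 : NumberField.discr ℚ⟮y⟯ ≠ 0 := NumberField.discr_ne_zero _
    have h2 : 1 ≤ |NumberField.discr ℚ⟮y⟯| := Int.one_le_abs h1
    exact_mod_cast h2
  · exact le_rfl

open Pool.Agent.X123.MT in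
theorem main (m q : ℕ) (hm : m.Prime) (hq : 3 ≤ q) (P : Fin q → ℤ × ℤ)
    (hP : ∀ j, IsCoprime (P j).1 (P j).2)
    (hPP : ∀ i j, i ≠ j → (P i).1 * (P j).2 ≠ (P j).1 * (P i).2)
    (a : ℤ) (ha : a ≠ 0) (e : Fin q → ℕ) (he : ∀ j, ¬ m ∣ e j)
    {Y : Type*} [MeasurableSpace Y] {μ : Measure Y} {L : ℚ → Y → ℝ} (hL : Generic μ L) :
    ∀ᵐ η ∂μ, ∀ ε : ℝ, 0 < ε → ∃ C : ℝ, ∀ (x : ℚ) (y : ℂ), y ≠ 0 → y ^ m = (form a P e x : ℂ) →
      (q : ℝ) / 2 * L x η ≤ logDisc y + (q / m + ε) * height x + C := by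
  have hm0 : (0 : ℝ) < m := by exact_mod_cast hm.pos
  have hm2 : (2 : ℝ) ≤ m := by exact_mod_cast hm.two_le
  have hq0 : (0 : ℝ) < q := by exact_mod_cast (show 0 < q by omega)
  obtain ⟨κ1, hκ1⟩ : ∃ κ1 : ℝ, κ1 = 2 * (1 - 1 / m) := ⟨_, rfl⟩
  have h1m : 1 / (m : ℝ) ≤ 1 / 2 := by
    apply div_le_div_of_nonneg_left one_pos.le two_pos hm2
  have h1m0 : 0 < 1 / (m : ℝ) := by positivity
  have hκ10 : 0 ≤ κ1 := by rw [hκ1]; linarith
  have H0 : ∀ᵐ η ∂μ, ∀ ε : ℝ, 0 < ε → ∃ C : ℝ, ∀ x ∈ (Set.univ : Set ℚ),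
      L x η ≤ (2 + ε) * height x + C :=
    hL Set.univ height 2 (fun x _ => height_nonneg x) (by norm_num) cnt_rat
  have H1 : ∀ᵐ η ∂μ, ∀ J j : ℕ, j ≤ J → ∀ ε : ℝ, 0 < ε → ∃ C : ℝ, ∀ (x : ℚ) (y : ℂ), y ≠ 0 →
      y ^ m = (form a P e x : ℂ) → 2 / q * logDisc y < (κ1 - κ1 * j / J) * height x →
      L x η ≤ (2 - κ1 * j / J + ε) * height x + C := by
    rw [ae_all_iff]
    intro J
    rw [ae_all_iff]
    intro j
    by_cases hj : j ≤ J
    · obtain ⟨κ, hκ⟩ : ∃ κ : ℝ, κ = κ1 * j / J := ⟨_, rfl⟩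
      have hκ0 : 0 ≤ κ := by rw [hκ]; positivity
      have hκ2 : κ ≤ κ1 := by
        rw [hκ]
        rcases Nat.eq_zero_or_pos J with h | h
        · subst h
          simpa using hκ10
        · have hJ : (0 : ℝ) < J := by exact_mod_cast h
          rw [div_le_iff₀ hJ]
          exact mul_le_mul_of_nonneg_left (by exact_mod_cast hj) hκ10
      have hκ3 : κ < 2 := by
        refine hκ2.trans_lt ?_
        rw [hκ1]
        linarith
      have hcnt : Cnt {x : ℚ | ∃ y : ℂ, y ≠ 0 ∧ y ^ m = (form a P e x : ℂ) ∧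
          2 / q * logDisc y < (κ1 - κ) * height x} height (2 - κ) := by
        intro δ hδ
        obtain ⟨C, hC⟩ := Pool.Agent.Results.MP_9b9442_nt.CyclicCovers.result m q hm hq P hP hPP
          a ha e he (q * κ / 2 - 2) 0 δ (by
            have h1 : q * κ / 2 ≤ q * κ1 / 2 := by
              have := mul_le_mul_of_nonneg_left hκ2 hq0.le
              linarith
            have h2 : q * κ1 / 2 = q * (1 - 1 / m) := by rw [hκ1]; ring
            linarith) hδ
        refine ⟨C, fun t ht => ?_⟩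
        obtain ⟨T, hT1, hT2⟩ := hC (Real.exp t) (Real.one_le_exp ht)
        have hsub : {x | x ∈ {x : ℚ | ∃ y : ℂ, y ≠ 0 ∧ y ^ m = (form a P e x : ℂ) ∧
            2 / q * logDisc y < (κ1 - κ) * height x} ∧ height x ≤ t} ⊆ (T : Set ℚ) := by
          rintro x ⟨⟨y, hy0, hy1, hy2⟩, hx⟩
          by_contra hxT
          have h1 := hT2 x y (by rw [Real.log_exp]; exact hx) hy0 hy1 hxT
          have h2 : (q * (1 - 1 / (m : ℝ)) - 2) * height x ≤
              logDisc y + (q * κ / 2 - 2) * height x + 0 := h1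
          have h3 : q * (1 - 1 / (m : ℝ)) = q * κ1 / 2 := by rw [hκ1]; ring
          rw [h3] at h2
          have h4 : 2 / q * logDisc y * (q / 2) = logDisc y := by field_simp
          have h5 := mul_lt_mul_of_pos_right hy2 (by positivity : (0 : ℝ) < q / 2)
          rw [h4] at h5
          nlinarith
        refine ⟨(Finset.finite_toSet T).subset hsub, ?_⟩
        have h1 := Set.ncard_le_ncard hsub (Finset.finite_toSet T)
        rw [Set.ncard_coe_finset] at h1
        refine le_trans (by exact_mod_cast h1) (hT1.trans (le_of_eq ?_))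
        rw [← Real.exp_mul]
        congr 2
        field_simp
        ring
      have h1 := hL _ _ _ (fun x _ => height_nonneg x) (by linarith : 0 ≤ 2 - κ) hcnt
      filter_upwards [h1] with η hη _ ε hε
      obtain ⟨C, hC⟩ := hη ε hε
      refine ⟨C, fun x y hy0 hy1 hy2 => ?_⟩
      rw [← hκ] at hy2 ⊢
      exact hC x ⟨y, hy0, hy1, hy2⟩
    · exact Filter.Eventually.of_forall fun y h => absurd h hj
  filter_upwards [H0, H1] with η h0 h1 ε hε
  obtain ⟨C, hC⟩ := line_of' (V := ℚ × ℂ)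
    (fun p => p.2 ≠ 0 ∧ p.2 ^ m = (form a P e p.1 : ℂ)) (fun p => 2 / q * logDisc p.2)
    (fun p => height p.1) (fun p => L p.1 η) (q := κ1) (κ1 := κ1)
    (fun p => height_nonneg _) hκ10
    (fun ε' hε' => by
      obtain ⟨C, hC⟩ := h0 ε' hε'
      exact ⟨C, fun p _ => hC p.1 (Set.mem_univ _)⟩)
    (fun J j hj ε' hε' => by
      obtain ⟨C, hC⟩ := h1 J j hj ε' hε'
      exact ⟨C, fun p hp hp2 => hC p.1 p.2 hp.1 hp.2 hp2⟩) (2 / q * ε) (by positivity)
  refine ⟨q / 2 * C, fun x y hy0 hy1 => ?_⟩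
  have h2 := hC (x, y) ⟨hy0, hy1⟩
  simp only at h2
  have h3 : 0 ≤ 2 / q * logDisc y := mul_nonneg (by positivity) (logDisc_nonneg y)
  have h4 : max (2 / q * logDisc y - (κ1 - 2) * height x) ((2 - κ1) * height x) =
      2 / q * logDisc y - (κ1 - 2) * height x := by
    apply max_eq_left
    linarith
  rw [h4] at h2
  have h5 := mul_le_mul_of_nonneg_left h2 (by positivity : (0 : ℝ) ≤ q / 2)
  refine h5.trans (le_of_eq ?_)
  rw [hκ1]
  field_simp
  ring

/-- **Vojta's inequality near almost every target.** Let `m` be a prime, `q ≥ 3`, let the points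
`(u_j : v_j)` of the line be distinct (`u_j`, `v_j` coprime), `a ≠ 0` and the `e_j` prime to `m`. We
consider all points `(x, y)`, `x ∈ ℚ`, `y ≠ 0`, of the cyclic cover
`y ^ m = a ∏ (v_j X_1 - u_j X_0) ^ (e_j)` (at the numerator and denominator of `x`).

(1) For almost all real numbers `ξ` and all `ε > 0` there is `C` such that all these points satisfy
`(q / 2) log⁺ (1 / |ξ - x|) ≤ d(x, y) + (q / m + ε) h(x) + C`. In particular: if `|ξ - x|` is at most
`H(x) ^ (- (2 - 4 / q))`, Vojta's inequality `(q (1 - 1 / m) - 2) h(x) ≤ d(x, y) + ε h(x) + C` holds,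
and if `|ξ - x| ≤ H(x) ^ (-2)` (for instance if `x` is a convergent), the inequality
`q (1 - 1 / m) h(x) ≤ d(x, y) + ε h(x) + C`.

(2) Let `F_i` be finitely many metric spaces with `σ`-finite Borel measures whose balls of radius
`r ≤ 1` have measure at most `C r ^ (n_i)`, and `σ_i : ℚ → F_i` arbitrary maps, for instance
completions of `ℚ` and `n_i = 1`. The first assertion of (1) holds for almost all `ξ` in the product of
the `F_i`, with `∑ n_i log⁺ (1 / |ξ_i - σ_i(x)|)`. -/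
theorem result (m q : ℕ) (hm : m.Prime) (hq : 3 ≤ q) (P : Fin q → ℤ × ℤ)
    (hP : ∀ j, IsCoprime (P j).1 (P j).2)
    (hPP : ∀ i j, i ≠ j → (P i).1 * (P j).2 ≠ (P j).1 * (P i).2)
    (a : ℤ) (ha : a ≠ 0) (e : Fin q → ℕ) (he : ∀ j, ¬ m ∣ e j) :
    (∀ᵐ ξ : ℝ, ∀ ε : ℝ, 0 < ε → ∃ C : ℝ, ∀ (x : ℚ) (y : ℂ), y ≠ 0 →
      y ^ m = (form a P e x : ℂ) →
        (q : ℝ) / 2 * max 0 (Real.log (1 / |ξ - x|)) ≤
          logDisc y + (q / m + ε) * height x + C ∧
        (|ξ - x| ≤ Real.exp (-((2 - 4 / q) * height x)) →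
          (q * (1 - 1 / m) - 2) * height x ≤ logDisc y + ε * height x + C) ∧
        (|ξ - x| ≤ Real.exp (-(2 * height x)) →
          q * (1 - 1 / m) * height x ≤ logDisc y + ε * height x + C)) ∧
    ∀ (ι : Type) [Fintype ι] (F : ι → Type) [∀ i, MetricSpace (F i)]
      [∀ i, MeasurableSpace (F i)] [∀ i, BorelSpace (F i)] (μ : ∀ i, Measure (F i))
      [∀ i, SigmaFinite (μ i)] (n : ι → ℝ) (σ : ∀ i, ℚ → F i), (∀ i, 0 < n i) →
      (∀ i, Balls (μ i) (n i)) →
      ∀ᵐ ξ ∂(Measure.pi μ), ∀ ε : ℝ, 0 < ε → ∃ C : ℝ, ∀ (x : ℚ) (y : ℂ), y ≠ 0 →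
        y ^ m = (form a P e x : ℂ) →
          (q : ℝ) / 2 * ∑ i, n i * max 0 (Real.log (1 / dist (ξ i) (σ i x))) ≤
            logDisc y + (q / m + ε) * height x + C := by
  have hm0 : (0 : ℝ) < m := by exact_mod_cast hm.pos
  have hq0 : (0 : ℝ) < q := by exact_mod_cast (show 0 < q by omega)
  refine ⟨?_, fun ι _ F _ _ _ μ _ n σ hn hμ => main m q hm hq P hP hPP a ha e he
    (Pool.Agent.X123.MT.generic_pi μ hn hμ σ)⟩
  have hne : ∀ᵐ ξ : ℝ, ∀ x : ℚ, ξ ≠ x := by
    rw [ae_all_iff]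
    intro x
    exact Measure.ae_ne volume (x : ℝ)
  have h1 := main m q hm hq P hP hPP a ha e he
    (Pool.Agent.X123.MT.generic_one (volume : Measure ℝ) (n := 1) one_pos
      Pool.Agent.X123.MT.balls_real (fun x : ℚ => (x : ℝ)))
  filter_upwards [h1, hne] with ξ hξ hne ε hε
  obtain ⟨C, hC⟩ := hξ ε hε
  refine ⟨C, fun x y hy0 hy1 => ?_⟩
  have h2 := hC x y hy0 hy1
  rw [one_mul, Real.dist_eq] at h2
  have hpos : 0 < |ξ - x| := abs_pos.2 (sub_ne_zero.2 (hne x))
  have hlog : ∀ t : ℝ, |ξ - x| ≤ Real.exp (-t) → t ≤ max 0 (Real.log (1 / |ξ - x|)) := by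
    intro t ht
    refine le_trans ?_ (le_max_right _ _)
    rw [Real.le_log_iff_exp_le (by positivity), le_div_iff₀ hpos]
    calc Real.exp t * |ξ - x| ≤ Real.exp t * Real.exp (-t) :=
          mul_le_mul_of_nonneg_left ht (Real.exp_pos _).le
      _ = 1 := by rw [← Real.exp_add]; simp
  refine ⟨h2, fun h => ?_, fun h => ?_⟩
  · have h3 := mul_le_mul_of_nonneg_left (hlog _ h) (by positivity : (0 : ℝ) ≤ q / 2)
    have h4 : (q : ℝ) / 2 * ((2 - 4 / q) * height x) = (q - 2) * height x := by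
      field_simp
      ring
    have h5 : (q : ℝ) * (1 - 1 / m) = q - q / m := by ring
    rw [h5]
    nlinarith
  · have h3 := mul_le_mul_of_nonneg_left (hlog _ h) (by positivity : (0 : ℝ) ≤ q / 2)
    have h5 : (q : ℝ) * (1 - 1 / m) = q - q / m := by ring
    rw [h5]
    nlinarith

end Pool.Agent.Results.MP_9b9442_nt.PointsNearTargets
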