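import Pool.Agent.X236.QB.Sextic

/-!
# Vojta's inequality above almost all rational points: hyperelliptic curves with one branch form of
degree six and others of degree at most five

Let `F = G H` be a binary form over `ℤ` without multiple factor, of degree `q = n + h`, where `G` has
even degree `n` and all irreducible factors of `H` have degree at most five. Let `X` be the
hyperelliptic curve `y² = F(x, 1)` (`q` even). Its canonical divisor is the pull-back of `q / 2 - 2`
points of the line. The closed points of degree two of `X` above rational numbers `x = a / b` have the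
residue field `ℚ(√F(a, b))`.

The theorem says that for `0 < ε ≤ 3 / 4` the inequality
`(q / 2 - 2 - (n - 6) / 2 - ε) h(x) < d(ℚ(√F(a, b)))` holds for all rational `x` of height at most `B`
outside a set with `O(B ^ (2 - ε / 4))` elements. For `n = 6` this is Vojta's inequality
`h_K ≤ d + ε h_A`, with a saving of a power of `B` over the number of all rational `x`.
-/

set_option autoImplicit false

namespace Pool.Agent.Results.MP_9b9442_nt.SexticBranchPoints

open Polynomial IntermediateField

/-- The binary form `∑ g_j X ^ j Z ^ (d - j)` of degree `d`, at the numerator and denominator of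
`x`. -/
def form (g : ℤ[X]) (d : ℕ) (x : ℚ) : ℤ :=
  ∑ j ∈ Finset.range (d + 1), g.coeff j * x.num ^ j * (x.den : ℤ) ^ (d - j)

/-- The binary form of degree `q` attached to `g` has no multiple factor. -/
def Reduced (g : ℤ[X]) (q : ℕ) : Prop :=
  Squarefree (g.map (Int.castRingHom ℚ)) ∧ g.natDegree ≤ q ∧ q ≤ g.natDegree + 1

/-- The logarithmic height of a rational number. -/
noncomputable def height (x : ℚ) : ℝ := Real.log ((max x.num.natAbs x.den : ℕ) : ℝ)

open Classical in
/-- The logarithmic discriminant of the field `ℚ(y)`. -/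
noncomputable def logDisc (y : ℂ) : ℝ :=
  if _ : NumberField ℚ⟮y⟯ then
    Real.log |(NumberField.discr ℚ⟮y⟯ : ℝ)| / Module.finrank ℚ ℚ⟮y⟯ else 0

/-- **Vojta's inequality for quadratic points above almost all rational numbers.** Let `G` and `H` be
binary forms over `ℤ` of degrees `n ≥ 2` (even) and `h ≥ 1` such that `G H` has no multiple factor, and
suppose that the irreducible factors over `ℚ` of `H` have degree at most five. Let `0 < ε ≤ 3 / 4`.
Then for all `B ≥ 1` all rational numbers `x = a / b` of height at most `log B` but at most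
`C B ^ (2 - ε / 4)` satisfy `(h / 2 + 1 - ε) h(x) < d(ℚ(y))` for all `y ≠ 0` with
`y ^ 2 = G(a, b) H(a, b)`. For `n = 6` one has `h / 2 + 1 = (n + h) / 2 - 2`. -/
theorem result (G H : ℤ[X]) (n h : ℕ) (hn : Even n) (hn2 : 2 ≤ n) (hh : 1 ≤ h)
    (hG : G.natDegree ≤ n) (hH : H.natDegree ≤ h) (hGH : Reduced (G * H) (n + h))
    (hfac : ∀ g : ℚ[X], Irreducible g → g ∣ H.map (Int.castRingHom ℚ) → g.natDegree ≤ 5)
    (ε : ℝ) (hε0 : 0 < ε) (hε : ε ≤ 3 / 4) :
    ∃ C : ℝ, ∀ B : ℝ, 1 ≤ B → ∃ T : Finset ℚ, (T.card : ℝ) ≤ C * B ^ (2 - ε / 4) ∧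
      ∀ (x : ℚ) (y : ℂ), height x ≤ Real.log B → y ≠ 0 →
        y ^ 2 = (form (G * H) (n + h) x : ℂ) → x ∉ T →
        ((h : ℝ) / 2 + 1 - ε) * height x < logDisc y := by
  obtain ⟨l, hl⟩ := hn
  have hl' : n = 2 * l := by omega
  subst hl'
  exact Pool.Agent.X236.QB.sextic G H l h (by omega) hh hG hH hGH hfac ε hε0 hε

end Pool.Agent.Results.MP_9b9442_nt.SexticBranchPoints
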